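import Pool.Agent.H609R2.EqPoly

/-!
# Graphs on numerical labels: a general form of reductions to graph problems
-/

set_option autoImplicit false

namespace Pool.Agent.Q323.Box

open Pool.Agent.NPC Pool.Agent.H622R2

/-- Labels. -/
abbrev LabN := ℕ × ℕ × ℕ

/-- All labels in a box. -/
def box (K N : ℕ) : List LabN :=
  (List.range K).flatMap fun k => (List.range N).flatMap fun i =>
    (List.range N).map fun j => (k, i, j)

theorem mem_box {K N : ℕ} {x : LabN} : x ∈ box K N ↔ x.1 < K ∧ x.2.1 < N ∧ x.2.2 < N := by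
  obtain ⟨k, i, j⟩ := x
  simp [box]

theorem nodup_box (K N : ℕ) : (box K N).Nodup := by
  unfold box
  refine nodup_flatMap_of (fun x : LabN => x.1) List.nodup_range (fun k _ => ?_) ?_
  · refine nodup_flatMap_of (fun x : LabN => x.2.1) List.nodup_range (fun i _ => ?_) ?_
    · exact List.nodup_range.map (fun a b h => by simpa using h)
    · intro i _ x hx
      rw [List.mem_map] at hx
      obtain ⟨j, _, rfl⟩ := hx
      rfl
  · intro k _ x hx
    rw [List.mem_flatMap] at hx
    obtain ⟨i, _, hx⟩ := hx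
    rw [List.mem_map] at hx
    obtain ⟨j, _, rfl⟩ := hx
    rfl

theorem box_poly {β : Type} [TEnc β] (K : ℕ) {N : β → ℕ} (hN : UPoly N) :
    Poly (fun b => box K (N b)) := by
  unfold box
  have h1 : Poly (fun b => List.range (N b)) := hN.range
  have h0 : Poly (fun _ : β => List.range K) := NPC.Poly.const _
  refine Poly.flatMap (F := fun b k => (List.range (N b)).flatMap fun i =>
    (List.range (N b)).map fun j => (k, i, j)) h0 ?_
  refine Poly.flatMap (F := fun (p : β × ℕ) i => (List.range (N p.1)).map fun j => (p.2, i, j))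
    (h1.comp (Poly.fst Poly.id)) ?_
  refine NPC.Poly.map (F := fun (p : (β × ℕ) × ℕ) j => (p.1.2, p.2, j))
    (h1.comp (Poly.fst (Poly.fst Poly.id))) ?_
  fun_prop

/-- The graph on the valid labels in a box. -/
def boxRed {β : Type} (K : ℕ) (N : β → ℕ) (valid : β → LabN → Bool) (adj : β → LabN → LabN → Bool)
    (b : β) : List (List Bool) := mat ((box K (N b)).filter (valid b)) (adj b)

theorem boxRed_poly {β : Type} [TEnc β] (K : ℕ) {N : β → ℕ} {valid : β → LabN → Bool}
    {adj : β → LabN → LabN → Bool} (hN : UPoly N) (hv : Poly (fun p : β × LabN => valid p.1 p.2))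
    (ha : Poly (fun z : (β × LabN) × LabN => adj z.1.1 z.1.2 z.2)) :
    Poly (boxRed K N valid adj) :=
  mat_poly (adj := adj) (Poly.filter (p := fun b x => valid b x) (box_poly K hN) hv) ha

/-- Recognizing the graph of the matrix. -/
theorem boxRed_iso {β V : Type} {K : ℕ} {N : β → ℕ} {valid : β → LabN → Bool}
    {adj : β → LabN → LabN → Bool} (b : β) (G : SimpleGraph V) (e : V → LabN)
    (he : Function.Injective e)
    (h1 : ∀ v, (e v).1 < K ∧ (e v).2.1 < N b ∧ (e v).2.2 < N b ∧ valid b (e v) = true)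
    (h2 : ∀ x : LabN, x.1 < K → x.2.1 < N b → x.2.2 < N b → valid b x = true → ∃ v, e v = x)
    (h3 : ∀ u v, u ≠ v → (G.Adj u v ↔ adj b (e u) (e v) = true ∨ adj b (e v) (e u) = true)) :
    Nonempty (G ≃g matGraph (boxRed K N valid adj b)) := by
  classical
  set vs := (box K (N b)).filter (valid b) with hvs
  have hnd : vs.Nodup := (nodup_box K (N b)).filter _
  have hmem : ∀ x, x ∈ vs ↔ ∃ v, e v = x := by
    intro x
    rw [hvs, List.mem_filter, mem_box]
    constructor
    · rintro ⟨⟨a1, a2, a3⟩, a4⟩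
      exact h2 x a1 a2 a3 a4
    · rintro ⟨v, rfl⟩
      obtain ⟨a1, a2, a3, a4⟩ := h1 v
      exact ⟨⟨a1, a2, a3⟩, a4⟩
  let E : V ≃ {x // x ∈ vs} := Equiv.ofBijective (fun v => ⟨e v, (hmem _).2 ⟨v, rfl⟩⟩) ⟨
    fun u v h => he (congrArg Subtype.val h), fun ⟨x, hx⟩ => by
      obtain ⟨v, rfl⟩ := (hmem x).1 hx
      exact ⟨v, rfl⟩⟩
  let e1 : G ≃g labGraph vs (adj b) :=
    { toEquiv := E
      map_rel_iff' := by
        intro u v
        change (E u ≠ E v ∧ (adj b (e u) (e v) = true ∨ adj b (e v) (e u) = true)) ↔ G.Adj u v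
        constructor
        · rintro ⟨hne, h⟩
          exact (h3 u v (fun h => hne (by rw [h]))).2 h
        · intro h
          exact ⟨fun h' => h.ne (E.injective h'), (h3 u v h.ne).1 h⟩ }
  exact ⟨e1.trans (matIso vs (adj b) hnd).symm⟩

end Pool.Agent.Q323.Box
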